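import Pool.Agent.H44.AR.TargetsA

/-!
# All reducts, all arities: the restriction to a core, basic lemmas
-/

set_option autoImplicit false
set_option linter.unusedVariables false

namespace Pool.Agent.H44.AR

open Pool.Agent.H68.BP Pool.Agent.H58.SF Pool.Agent.H53.GC Pool.Agent.H53.NR Pool.Agent.H53.GR
open Pool.Agent.H57.AR
open Pool.Agent.H57.EQ (Cx)
open Function

/-! ### Types -/

section types

variable {V V' W Z U : Type} {σ ρ ρ' : Sig}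

theorem pullO_pullO (t : OT ρ Z) (s : W → Z) (r : U → W) :
    pullO (pullO t s) r = pullO t (fun a => s (r a)) := rfl

theorem tyO_pullO (t : OT ρ Z) (s : W → Z) (a : W) : tyO (pullO t s) a = tyO t (s a) := rfl

theorem eqO_pullO (t : OT ρ Z) (s : W → Z) (a b : W) :
    eqO (pullO t s) a b ↔ eqO t (s a) (s b) := Iff.rfl

section ord

variable [LinearOrder V] [LinearOrder V'] {𝔹 : Str ρ V} {𝔹' : Str ρ V'}

theorem pullO_tpo (x : Z → V) (s : W → Z) : pullO (tpo 𝔹 x) s = tpo 𝔹 (fun a => x (s a)) := rfl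

theorem tyO_tpo (x : W → V) (a : W) : tyO (tpo 𝔹 x) a = ty 𝔹 (x a) := rfl

theorem eqO_tpo (x : W → V) (a b : W) : eqO (tpo 𝔹 x) a b ↔ x a = x b := by
  constructor
  · rintro ⟨h1, h2⟩
    exact le_antisymm (not_lt.1 h2) (not_lt.1 h1)
  · intro h
    refine ⟨?_, ?_⟩
    · show ¬ x a < x b
      rw [h]
      exact lt_irrefl _
    · show ¬ x b < x a
      rw [h]
      exact lt_irrefl _

theorem tpo_const (x : V) : tpo 𝔹 (fun _ : Fin 1 => x) = cst (ty 𝔹 x) := by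
  refine Prod.ext ?_ ?_
  · rfl
  · funext a b
    exact propext ⟨fun h => absurd h (lt_irrefl _), fun h => h.elim⟩

theorem tpo_eq_iff {x : W → V} {y : W → V'} : tpo 𝔹 x = tpo 𝔹' y ↔
    ((∀ l (z : Fin (ρ.ar l) → W), 𝔹 l (fun i => x (z i)) ↔ 𝔹' l (fun i => y (z i))) ∧
      ∀ a b, x a < x b ↔ y a < y b) := by
  constructor
  · intro h
    exact ⟨fun l z => iff_of_eq (congrFun (congrFun (congrArg Prod.fst h) l) z),
      fun a b => iff_of_eq (congrFun (congrFun (congrArg Prod.snd h) a) b)⟩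
  · rintro ⟨h1, h2⟩
    exact Prod.ext (funext fun l => funext fun z => propext (h1 l z))
      (funext fun a => funext fun b => propext (h2 a b))

theorem sameTp_iff {x y : W → V} : SameTp 𝔹 x y ↔ tpo 𝔹 x = tpo 𝔹 y :=
  ⟨fun h => Prod.ext h.2 (funext fun a => funext fun b => propext (h.1 a b)),
    fun h => ⟨fun a b => iff_of_eq (congrFun (congrFun (congrArg Prod.snd h) a) b),
      congrArg Prod.fst h⟩⟩

theorem tpo_comp {x : W → V} {y : W → V'} (h : tpo 𝔹 x = tpo 𝔹' y) (s : Z → W) :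
    tpo 𝔹 (fun a => x (s a)) = tpo 𝔹' (fun a => y (s a)) :=
  congrArg (fun t => pullO t s) h

theorem eq_of_tpo {x : W → V} {y : W → V'} (h : tpo 𝔹 x = tpo 𝔹' y) (a b : W) :
    x a = x b ↔ y a = y b := by
  rw [← eqO_tpo (𝔹 := 𝔹) x, ← eqO_tpo (𝔹 := 𝔹') y, h]

theorem ty_of_tpo {x : W → V} {y : W → V'} (h : tpo 𝔹 x = tpo 𝔹' y) (a : W) :
    ty 𝔹 (x a) = ty 𝔹' (y a) := by
  rw [← tyO_tpo (𝔹 := 𝔹) x, ← tyO_tpo (𝔹 := 𝔹') y, h]

theorem SameO.of_tpo {x y : W → V} (h : tpo 𝔹 x = tpo 𝔹 y) (D : Set (T1 ρ)) :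
    SameO 𝔹 D x y :=
  ⟨fun a => (ty_of_tpo h a).symm, fun a b _ _ => ((tpo_eq_iff.1 h).2 a b).symm,
    fun l z _ => ((tpo_eq_iff.1 h).1 l z).symm⟩

theorem SameO.tpo {x y : W → V} (h : SameO 𝔹 ∅ x y) : tpo 𝔹 x = tpo 𝔹 y :=
  tpo_eq_iff.2 ⟨fun l z => (h.rel l z fun _ h => h).symm,
    fun a b => (h.lt a b (fun h => h) (fun h => h)).symm⟩

end ord

theorem SameD.of_tp {𝔹 : Str ρ V} {x y : W → V} (h : tp 𝔹 y = tp 𝔹 x) (D : Set (T1 ρ)) :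
    SameD 𝔹 D x y :=
  ⟨fun a => funext fun l => congrFun (congrFun (congrArg Prod.snd h) l) (fun _ => a),
    fun a b _ _ => iff_of_eq (congrFun (congrFun (congrArg Prod.fst h) a) b),
    fun l z _ => iff_of_eq (congrFun (congrFun (congrArg Prod.snd h) l) z)⟩

theorem SameD.tp {𝔹 : Str ρ V} {x y : W → V} (h : SameD 𝔹 ∅ x y) : tp 𝔹 y = tp 𝔹 x :=
  Prod.ext (funext fun a => funext fun b => propext (h.eq a b (fun h => h) (fun h => h)))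
    (funext fun l => funext fun z => propext (h.rel l z fun _ h => h))

theorem SameD.of_tpo [LinearOrder V] {𝔹 : Str ρ V} {x y : W → V} (h : tpo 𝔹 x = tpo 𝔹 y)
    (D : Set (T1 ρ)) : SameD 𝔹 D x y :=
  ⟨fun a => (ty_of_tpo h a).symm, fun a b _ _ => (eq_of_tpo h a b).symm,
    fun l z _ => ((tpo_eq_iff.1 h).1 l z).symm⟩

theorem SameD.comp {𝔹 : Str ρ V} {D : Set (T1 ρ)} {x y : W → V} (h : SameD 𝔹 D x y)
    (s : Z → W) : SameD 𝔹 D (fun a => x (s a)) (fun a => y (s a)) :=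
  ⟨fun a => h.typ (s a), fun a b => h.eq (s a) (s b), fun l z => h.rel l (fun i => s (z i))⟩

theorem SameO.comp [LinearOrder V] {𝔹 : Str ρ V} {D : Set (T1 ρ)} {x y : W → V}
    (h : SameO 𝔹 D x y) (s : Z → W) : SameO 𝔹 D (fun a => x (s a)) (fun a => y (s a)) :=
  ⟨fun a => h.typ (s a), fun a b => h.lt (s a) (s b), fun l z => h.rel l (fun i => s (z i))⟩

theorem SameD.symm {𝔹 : Str ρ V} {D : Set (T1 ρ)} {x y : W → V} (h : SameD 𝔹 D x y) :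
    SameD 𝔹 D y x :=
  ⟨fun a => (h.typ a).symm, fun a b ha hb => (h.eq a b (h.typ a ▸ ha) (h.typ b ▸ hb)).symm,
    fun l z hz => (h.rel l z fun i => h.typ (z i) ▸ hz i).symm⟩

theorem SameD.trans {𝔹 : Str ρ V} {D : Set (T1 ρ)} {x y w : W → V} (h : SameD 𝔹 D x y)
    (h' : SameD 𝔹 D y w) : SameD 𝔹 D x w := by
  have e : ∀ a, ty 𝔹 (x a) ∉ D → ty 𝔹 (y a) ∉ D := fun a ha => by rw [h.typ a]; exact ha
  exact ⟨fun a => (h'.typ a).trans (h.typ a),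
    fun a b ha hb => (h'.eq a b (e a ha) (e b hb)).trans (h.eq a b ha hb),
    fun l z hz => (h'.rel l z fun i => e _ (hz i)).trans (h.rel l z hz)⟩

theorem SameD.mono {𝔹 : Str ρ V} {D D' : Set (T1 ρ)} {x y : W → V} (h : SameD 𝔹 D x y)
    (hD : ∀ a, ty 𝔹 (x a) ∈ D → ty 𝔹 (x a) ∈ D') : SameD 𝔹 D' x y :=
  ⟨h.typ, fun a b ha hb => h.eq a b (fun h => ha (hD a h)) (fun h => hb (hD b h)),
    fun l z hz => h.rel l z fun i hi => hz i (hD _ hi)⟩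

theorem SameO.sameD [LinearOrder V] {𝔹 : Str ρ V} {D : Set (T1 ρ)} {x y : W → V}
    (h : SameO 𝔹 D x y) : SameD 𝔹 D x y := by
  refine ⟨h.typ, fun a b ha hb => ?_, h.rel⟩
  have h1 := h.lt a b ha hb
  have h2 := h.lt b a hb ha
  constructor
  · intro he
    rw [he] at h1 h2
    exact le_antisymm (not_lt.1 fun h' => lt_irrefl _ (h2.2 h'))
      (not_lt.1 fun h' => lt_irrefl _ (h1.2 h'))
  · intro he
    rw [he] at h1 h2
    exact le_antisymm (not_lt.1 fun h' => lt_irrefl _ (h2.1 h'))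
      (not_lt.1 fun h' => lt_irrefl _ (h1.1 h'))

end types

/-! ### Maps which depend only on types -/

section tid

variable {V W I : Type} [LinearOrder V] {ρ ρ' : Sig} {𝔹 : Str ρ V} {D : Set (T1 ρ)}
  {h : OT ρ' (I → V)}

theorem TID.gen (hh : TID 𝔹 D h) {v v' : W → I → V}
    (hv : SameO 𝔹 D (fun q : W × I => v q.1 q.2) (fun q => v' q.1 q.2)) :
    pullO h v = pullO h v' := by
  refine Prod.ext ?_ ?_
  · funext l z
    have h1 := hh _ (fun a => v (z a)) (fun a => v' (z a))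
      (hv.comp (fun q : Fin (ρ'.ar l) × I => (z q.1, q.2)))
    exact congrFun (congrFun (congrArg Prod.fst h1) l) (fun a => a)
  · funext a b
    have h1 := hh 2 (fun i => v (![a, b] i)) (fun i => v' (![a, b] i))
      (hv.comp (fun q : Fin 2 × I => (![a, b] q.1, q.2)))
    exact congrFun (congrFun (congrArg Prod.snd h1) 0) 1

theorem TID.tpo (hh : TID 𝔹 ∅ h) {v v' : W → I → V}
    (hv : tpo 𝔹 (fun q : W × I => v q.1 q.2) = tpo 𝔹 (fun q : W × I => v' q.1 q.2)) :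
    pullO h v = pullO h v' := hh.gen (SameO.of_tpo hv _)

theorem TID.mono {D' : Set (T1 ρ)} (hh : TID 𝔹 D h) (hD : D' ⊆ D) : TID 𝔹 D' h := by
  intro k v v' hv
  refine hh k v v' ⟨hv.typ, fun a b ha hb => hv.lt a b (fun h => ha (hD h)) fun h => hb (hD h),
    fun l z hz => hv.rel l z fun i hi => hz i (hD hi)⟩

end tid

/-! ### Canonical unary maps -/

section um

variable {V V' V'' W : Type} [LinearOrder V] [LinearOrder V'] [LinearOrder V'']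
  {σ ρ ρ' ρ'' : Sig} {𝔹 : Str ρ V} {𝔹' : Str ρ' V'} {𝔹'' : Str ρ'' V''} {𝔸 : Str σ V}
  {𝔸' : Str σ V'} {𝔸'' : Str σ V''} {m : (k : ℕ) → OT ρ (Fin k) → OT ρ' (Fin k)}
  {m' : (k : ℕ) → OT ρ' (Fin k) → OT ρ'' (Fin k)}

theorem UM.refl : UM 𝔹 𝔹 𝔸 𝔸 (fun _ t => t) :=
  fun _ _ G => ⟨G, fun _ _ h => h, fun _ _ => rfl⟩

theorem UM.comp (h : UM 𝔹 𝔹' 𝔸 𝔸' m) (h' : UM 𝔹' 𝔹'' 𝔸' 𝔸'' m') :
    UM 𝔹 𝔹'' 𝔸 𝔸'' (fun k t => m' k (m k t)) := by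
  intro W _ G
  obtain ⟨ψ, h1, h2⟩ := h W G
  obtain ⟨φ, h3, h4⟩ := h' W ψ
  exact ⟨φ, fun l z hz => h3 l z (h1 l z hz), fun k z => by rw [h4, h2]⟩

/-- the values are realized -/
theorem UM.rlz (h : UM 𝔹 𝔹' 𝔸 𝔸' m) {k : ℕ} (u : Fin k → V) :
    ∃ v : Fin k → V', Hx 𝔸 𝔸' u v ∧ tpo 𝔹' v = m k (tpo 𝔹 u) ∧
      ∀ (j : ℕ) (z : Fin j → Fin k), tpo 𝔹' (fun a => v (z a)) = m j (tpo 𝔹 (fun a => u (z a))) := by
  obtain ⟨v, h1, h2⟩ := h (Fin k) u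
  exact ⟨v, h1, h2 k (fun a => a), fun j z => h2 j z⟩

theorem UM.pull (h : UM 𝔹 𝔹' 𝔸 𝔸' m) {k j : ℕ} (u : Fin k → V) (z : Fin j → Fin k) :
    pullO (m k (tpo 𝔹 u)) z = m j (tpo 𝔹 (fun a => u (z a))) := by
  obtain ⟨v, h1, h2, h3⟩ := h.rlz u
  rw [← h2, ← h3 j z, pullO_tpo]

theorem UM.typ (h : UM 𝔹 𝔹' 𝔸 𝔸' m) {k : ℕ} (u : Fin k → V) (a : Fin k) :
    tyO (m k (tpo 𝔹 u)) a = tm m (ty 𝔹 (u a)) := by
  have h1 := h.pull u (fun _ : Fin 1 => a)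
  rw [tpo_const] at h1
  unfold tm
  rw [← h1, tyO_pullO]

/-- the types of the values -/
theorem UM.ty_eq (h : UM 𝔹 𝔹' 𝔸 𝔸' m) {G : W → V} {ψ : W → V'}
    (hψ : ∀ (k : ℕ) (z : Fin k → W),
      tpo 𝔹' (fun a => ψ (z a)) = m k (tpo 𝔹 (fun a => G (z a)))) (w : W) :
    ty 𝔹' (ψ w) = tm m (ty 𝔹 (G w)) := by
  have h1 := hψ 1 (fun _ => w)
  rw [← h.typ (fun _ : Fin 1 => G w) 0, ← h1]
  rfl

theorem UM.tm_mem (h : UM 𝔹 𝔹' 𝔸 𝔸' m) (x : V) : ∃ y, ty 𝔹' y = tm m (ty 𝔹 x) := by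
  obtain ⟨v, h1, h2, h3⟩ := h.rlz (fun _ : Fin 1 => x)
  refine ⟨v 0, ?_⟩
  rw [← h.typ (fun _ : Fin 1 => x) 0, ← h2]
  rfl

theorem UM.tm_comp (h : UM 𝔹 𝔹' 𝔸 𝔸' m) (h' : UM 𝔹' 𝔹'' 𝔸' 𝔸'' m') (x : V) :
    tm (fun k t => m' k (m k t)) (ty 𝔹 x) = tm m' (tm m (ty 𝔹 x)) := by
  obtain ⟨v, h1, h2, h3⟩ := h.rlz (fun _ : Fin 1 => x)
  have e : ty 𝔹' (v 0) = tm m (ty 𝔹 x) := by
    rw [← h.typ (fun _ : Fin 1 => x) 0, ← h2]
    rfl
  have e1 : v = fun _ => v 0 := funext fun i => by rw [Subsingleton.elim i 0]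
  unfold tm
  beta_reduce
  rw [← tpo_const, ← h2, e1, tpo_const, e]
  rfl

theorem tm_id (s : T1 ρ) : tm (fun _ t => t : (k : ℕ) → OT ρ (Fin k) → OT ρ (Fin k)) s = s := rfl

/-- transfer of homomorphisms -/
theorem UM.hom (h : UM 𝔹 𝔹' 𝔸 𝔸' m) {n : ℕ} {𝕏 : Str σ (Fin n)} (hf : ∃ f, IsHom 𝕏 𝔸 f) :
    ∃ f, IsHom 𝕏 𝔸' f := by
  obtain ⟨f, hf⟩ := hf
  obtain ⟨ψ, h1, -⟩ := h (Fin n) f
  exact ⟨ψ, fun l z hz => h1 l z (hf l z hz)⟩

end um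

end Pool.Agent.H44.AR
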