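import Pool.Agent.H57.AR.Defs

/-!
# All reducts, all arities: the restriction to a core, definitions
-/

set_option autoImplicit false
set_option linter.unusedVariables false

namespace Pool.Agent.H44.AR

open Pool.Agent.H68.BP Pool.Agent.H58.SF Pool.Agent.H53.GC Pool.Agent.H53.NR Pool.Agent.H53.GR
open Pool.Agent.H57.AR
open Pool.Agent.H57.EQ (Cx)
open Function

/-- The types of elements: the symbols which hold for the constant tuples. -/
abbrev T1 (ρ : Sig) : Type := Fin ρ.m → Prop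

section types

variable {W Z : Type} {ρ : Sig}

/-- the type of the element at the place `a` -/
def tyO (t : OT ρ W) (a : W) : T1 ρ := fun l => t.1 l (fun _ => a)

/-- the elements at the places `a` and `b` are equal -/
def eqO (t : OT ρ W) (a b : W) : Prop := ¬ t.2 a b ∧ ¬ t.2 b a

/-- the ordered type of a tuple of length one -/
def cst (s : T1 ρ) : OT ρ (Fin 1) := (fun l _ => s l, fun _ _ => False)

/-- the ordered type of a pair `x < y` of free elements of types `s` and `t` -/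
def frp (s t : T1 ρ) : OT ρ (Fin 2) :=
  (fun l z => ((∀ i, z i = 0) ∧ s l) ∨ ((∀ i, z i = 1) ∧ t l), fun a b => a = 0 ∧ b = 1)

end types

section order

variable {V V' W I Z : Type} {σ ρ ρ' : Sig}

/-- the hypotheses on the ordered structure `(V, <, 𝔹)` -/
structure Un [LinearOrder V] (𝔹 : Str ρ V) (M : ℕ) : Prop where
  ne : Nonempty V
  cnt : Countable V
  three : 3 ≤ M
  ar : ∀ l, 1 ≤ ρ.ar l ∧ ρ.ar l < M
  univ : Univ 𝔹 M

/-- The tuples `x` and `y` have the same types of elements, and the same equalities and relations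
at the elements whose types are not in `D`. -/
structure SameD (𝔹 : Str ρ V) (D : Set (T1 ρ)) (x y : W → V) : Prop where
  typ : ∀ a, ty 𝔹 (y a) = ty 𝔹 (x a)
  eq : ∀ a b, ty 𝔹 (x a) ∉ D → ty 𝔹 (x b) ∉ D → (y a = y b ↔ x a = x b)
  rel : ∀ (l : Fin ρ.m) (z : Fin (ρ.ar l) → W), (∀ i, ty 𝔹 (x (z i)) ∉ D) →
    (𝔹 l (fun i => y (z i)) ↔ 𝔹 l (fun i => x (z i)))

/-- The same with the order instead of the equalities. -/
structure SameO [LinearOrder V] (𝔹 : Str ρ V) (D : Set (T1 ρ)) (x y : W → V) : Prop where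
  typ : ∀ a, ty 𝔹 (y a) = ty 𝔹 (x a)
  lt : ∀ a b, ty 𝔹 (x a) ∉ D → ty 𝔹 (x b) ∉ D → (y a < y b ↔ x a < x b)
  rel : ∀ (l : Fin ρ.m) (z : Fin (ρ.ar l) → W), (∀ i, ty 𝔹 (x (z i)) ∉ D) →
    (𝔹 l (fun i => y (z i)) ↔ 𝔹 l (fun i => x (z i)))

/-- `h` depends only on the ordered types, and only on the types of the elements at the elements
whose types are in `D`. -/
def TID [LinearOrder V] (𝔹 : Str ρ V) (D : Set (T1 ρ)) (h : OT ρ' (I → V)) : Prop :=
  ∀ (k : ℕ) (v v' : Fin k → I → V),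
    SameO 𝔹 D (fun q : Fin k × I => v q.1 q.2) (fun q => v' q.1 q.2) → pullO h v = pullO h v'

/-- The relations of `𝔸` depend only on the types of the elements, and on the equalities and
relations at the elements whose types are not in `D`. -/
def Blind (𝔹 : Str ρ V) (𝔸 : Str σ V) (D : Set (T1 ρ)) : Prop :=
  ∀ (l : Fin σ.m) (x y : Fin (σ.ar l) → V), 𝔸 l x → SameD 𝔹 D x y → 𝔸 l y

/-- `h` gives the ordered types of the tuples of values of a map from the power of `V` to `V` which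
preserves `𝔸`. -/
def PM [LinearOrder V] (𝔹 : Str ρ V) (𝔸 : Str σ V) (h : OT ρ (I → V)) : Prop :=
  ∀ (W : Type) [Finite W] (G : I → W → V), ∃ ψ : W → V, Cx 𝔸 G ψ ∧
    tpo 𝔹 ψ = pullO h (fun w i => G i w)

/-- The identities of an Olšák function. -/
def ExaO (h : OT ρ (Fin 6 → V)) : Prop :=
  ∀ r : Fin 3, pullO h (fun p : V × V => pat r p.1 p.2) = pullO h (fun p : V × V => pat 0 p.1 p.2)

/-- `m` gives the ordered types of the tuples of values of a homomorphism from `𝔸` to `𝔸'`. -/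
def UM [LinearOrder V] [LinearOrder V'] (𝔹 : Str ρ V) (𝔹' : Str ρ' V') (𝔸 : Str σ V)
    (𝔸' : Str σ V') (m : (k : ℕ) → OT ρ (Fin k) → OT ρ' (Fin k)) : Prop :=
  ∀ (W : Type) [Finite W] (G : W → V), ∃ ψ : W → V', Hx 𝔸 𝔸' G ψ ∧
    ∀ (k : ℕ) (z : Fin k → W), tpo 𝔹' (fun a => ψ (z a)) = m k (tpo 𝔹 (fun a => G (z a)))

/-- the map of the types of elements -/
def tm (m : (k : ℕ) → OT ρ (Fin k) → OT ρ' (Fin k)) (s : T1 ρ) : T1 ρ' := tyO (m 1 (cst s)) 0

/-- `m` identifies the elements of type `s`. -/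
def Clp (m : (k : ℕ) → OT ρ (Fin k) → OT ρ' (Fin k)) (s : T1 ρ) : Prop :=
  eqO (m 2 (frp s s)) 0 1

/-- a structure with a canonical Olšák map -/
structure Sit [LinearOrder V] (𝔹 : Str ρ V) (𝔸 : Str σ V) (D : Set (T1 ρ))
    (h : OT ρ (Fin 6 → V)) : Prop where
  blind : Blind 𝔹 𝔸 D
  pm : PM 𝔹 𝔸 h
  tid : TID 𝔹 D h
  exact : ExaO h

/-- All canonical endomorphisms of `𝔸` permute the types of elements. -/
def NE1 [LinearOrder V] (𝔹 : Str ρ V) (𝔸 : Str σ V) : Prop :=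
  ∀ m, UM 𝔹 𝔹 𝔸 𝔸 m → ∀ x y, tm m (ty 𝔹 x) = tm m (ty 𝔹 y) → ty 𝔹 x = ty 𝔹 y

/-- No canonical endomorphism of `𝔸` identifies the elements of a type which is not in `D`. -/
def NE2 [LinearOrder V] (𝔹 : Str ρ V) (𝔸 : Str σ V) (D : Set (T1 ρ)) : Prop :=
  ∀ m, UM 𝔹 𝔹 𝔸 𝔸 m → ∀ x, ty 𝔹 x ∉ D → ¬ Clp m (ty 𝔹 x)

/-- The core situation: moreover blocks of elements of one type have values of this type. -/
structure CoreA [LinearOrder V] (𝔹 : Str ρ V) (𝔸 : Str σ V) (D : Set (T1 ρ))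
    (h : OT ρ (Fin 6 → V)) : Prop where
  sit : Sit 𝔹 𝔸 D h
  ne1 : NE1 𝔹 𝔸
  ne2 : NE2 𝔹 𝔸 D
  pur : ∀ (s : T1 ρ) (z : Fin 6 → V), (∀ l, ty 𝔹 (z l) = s) → tyO h z = s

/-- The structure where the elements with types in `D` are arbitrary. -/
def shp (𝔹 : Str ρ V) (𝔸 : Str σ V) (D : Set (T1 ρ)) : Str σ V :=
  fun l y => ∃ x, 𝔸 l x ∧ SameD 𝔹 D x y

/-- `m` fixes the types and identifies the elements of the types in `D`. -/
structure Fix (𝔹 : Str ρ V) (D : Set (T1 ρ)) (m : (k : ℕ) → OT ρ (Fin k) → OT ρ (Fin k)) :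
    Prop where
  typ : ∀ x, tm m (ty 𝔹 x) = ty 𝔹 x
  clp : ∀ x, ty 𝔹 x ∈ D → Clp m (ty 𝔹 x)

/-- `g` is an increasing block whose elements are free from each other. -/
structure Gb [LinearOrder V] (𝔹 : Str ρ V) (g : Fin 6 → V) : Prop where
  mono : StrictMono g
  free : ∀ (l : Fin ρ.m) (w : Fin (ρ.ar l) → Fin 6), 𝔹 l (fun i => g (w i)) → ∀ i j, w i = w j

/-- The blocks `z` and `z'` are copies of `q`, they are free from each other, and they are in the
same zones. -/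
structure Twin [LinearOrder V] (𝔹 : Str ρ V) (q z z' : Fin 6 → V) : Prop where
  cp : tpo 𝔹 z = tpo 𝔹 q
  cp' : tpo 𝔹 z' = tpo 𝔹 q
  free : ∀ (l : Fin ρ.m) (w : Fin (ρ.ar l) → Fin 6 ⊕ Fin 6),
    𝔹 l (fun i => Sum.elim z z' (w i)) → (∀ i, ∃ j, w i = Sum.inl j) ∨ ∀ i, ∃ j, w i = Sum.inr j
  lt : ∀ l l', z l < z' l' ↔ q l ≤ q l'
  gt : ∀ l l', z' l < z l' ↔ q l < q l'

end order

end Pool.Agent.H44.AR
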