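import Pool.Agent.H44.AR.BasicA
import Pool.Agent.H57.AR.Targets

/-!
# All reducts, all arities: the restriction to a core, assembly
-/

set_option autoImplicit false
set_option linter.unusedVariables false

namespace Pool.Agent.H44.AR

open Pool.Agent.H68.BP Pool.Agent.H58.SF Pool.Agent.H53.GC Pool.Agent.H53.NR Pool.Agent.H53.GR
open Pool.Agent.H57.AR
open Pool.Agent.H57.SO (Pal Col vt Sb FBl)
open Pool.Agent.H57.EQ (Cx)
open Function

theorem blind_of_tyi {V : Type} {σ ρ : Sig} {𝔸 : Str σ V} {𝔹 : Str ρ V}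
    (h : ∀ (l : Fin σ.m) (x y : Fin (σ.ar l) → V), 𝔸 l x → tp 𝔹 y = tp 𝔹 x → 𝔸 l y) :
    Blind 𝔹 𝔸 ∅ := fun l x y hx hxy => h l x y hx hxy.tp

theorem Blind.tyi {V : Type} {σ ρ : Sig} {𝔸 : Str σ V} {𝔹 : Str ρ V} {D : Set (T1 ρ)}
    (h : Blind 𝔹 𝔸 D) (l : Fin σ.m) (x y : Fin (σ.ar l) → V) (hx : 𝔸 l x)
    (hxy : tp 𝔹 y = tp 𝔹 x) : 𝔸 l y := h l x y hx (SameD.of_tp hxy D)

/-- the second step -/
theorem asm_STC (hMAX : T_MAX) (hSHP : T_SHP) (hNEE : T_NEE) (hPRE : T_PRE) (hBLD : T_BLD) :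
    T_STC := by
  intro σ ρ V _ 𝔸 𝔹 M hU h hh hne
  obtain ⟨m, D, hm, hF, hmax⟩ := hMAX σ ρ V 𝔸 𝔹
  obtain ⟨hb, hm1, hm2⟩ := hSHP σ ρ V 𝔸 𝔹 M hU m D hh.blind hm hF
  obtain ⟨hn1, hn2⟩ := hNEE σ ρ V 𝔸 𝔹 M hU m D hne hm hF hmax hm1 hm2
  obtain ⟨h₁, hp₁, ht₁, he₁⟩ := hPRE σ ρ ρ V V 𝔸 𝔹 (shp 𝔹 𝔸 D) 𝔹 h (fun _ t => t) m hU.ne
    (fun l => (hU.ar l).1) hh.pm hh.tid hh.exact hm1 hm2
  obtain ⟨h₂, ht₂, hg⟩ := hBLD ρ ρ V (Fin 6) 𝔹 M hU (fun l => (hU.ar l).1) D h₁ ht₁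
  refine ⟨D, shp 𝔹 𝔸 D, h₂, fun _ t => t, m, ⟨hb, ?_, ht₂, ?_⟩, hn1, hn2, hm1, hm2⟩
  · intro W _ G
    classical
    have := Fintype.ofFinite W
    let K : Finset V := Finset.univ.image (fun q : Fin 6 × W => G q.1 q.2)
    have hK : ∀ i w, G i w ∈ K := fun i w => Finset.mem_image.2 ⟨(i, w), Finset.mem_univ _, rfl⟩
    obtain ⟨g, hg1, hg2⟩ := hg K
    obtain ⟨ψ, h3, h4⟩ := hp₁ W (fun i w => g (G i w))
    refine ⟨ψ, fun l z hz => h3 l z fun i => ?_, ?_⟩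
    · exact hb l _ _ (hz i) (hg1.comp (fun a => (⟨G i (z a), hK i (z a)⟩ : K)))
    · rw [h4]
      let e := Finite.equivFin W
      have h5 := hg2 _ (fun a i => G i (e.symm a)) (fun a i => hK i _)
      have h6 := congrArg (fun t => pullO t e) h5
      simp only [pullO_pullO] at h6
      have e1 : (fun w i => G i w) = fun w : W => (fun i => G i (e.symm (e w))) := by
        funext w i
        rw [e.symm_apply_apply]
      have e2 : (fun w i => g (G i w)) = fun w : W => (fun i => g (G i (e.symm (e w)))) := by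
        funext w i
        rw [e.symm_apply_apply]
      rw [e1, e2]
      exact h6.symm
  · intro r
    have key : ∀ (k : ℕ) (z : Fin k → V × V), pullO h₂ (fun a => pat r (z a).1 (z a).2) =
        pullO h₂ (fun a => pat 0 (z a).1 (z a).2) := by
      intro k z
      classical
      let K : Finset V := Finset.univ.image (fun a => (z a).1) ∪
        Finset.univ.image (fun a => (z a).2)
      have hK : ∀ (r : Fin 3) (a : Fin k) (i : Fin 6), pat r (z a).1 (z a).2 i ∈ K := by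
        intro r a i
        have h1 : (z a).1 ∈ K :=
          Finset.mem_union_left _ (Finset.mem_image.2 ⟨a, Finset.mem_univ _, rfl⟩)
        have h2 : (z a).2 ∈ K :=
          Finset.mem_union_right _ (Finset.mem_image.2 ⟨a, Finset.mem_univ _, rfl⟩)
        fin_cases r <;> fin_cases i <;> first | exact h1 | exact h2
      obtain ⟨g, hg1, hg2⟩ := hg K
      rw [hg2 k _ (hK r), hg2 k _ (hK 0)]
      have e1 : ∀ r : Fin 3, (fun a i => g (pat r (z a).1 (z a).2 i)) =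
          fun a => pat r (g (z a).1) (g (z a).2) := by
        intro r
        funext a i
        fin_cases r <;> fin_cases i <;> rfl
      rw [e1, e1]
      exact congrArg (fun t => pullO t (fun a => (g (z a).1, g (z a).2))) (he₁ r)
    refine Prod.ext ?_ ?_
    · funext l z
      exact congrFun (congrFun (congrArg Prod.fst (key _ z)) l) (fun a => a)
    · funext a b
      exact congrFun (congrFun (congrArg Prod.snd (key 2 ![a, b])) 0) 1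

/-- from the core situation to the hypotheses of the other parts -/
theorem asm_core (hNCT : T_NCT) (hLNK : T_LNK) (hSPT : T_SPT) (hPRB : T_PRB) (hCR2 : T_CR2)
    {σ ρ : Sig} {V : Type} [LinearOrder V] {𝔸 : Str σ V} {𝔹 : Str ρ V} {M : ℕ} (hU : Un 𝔹 M)
    {D : Set (T1 ρ)} {h : OT ρ (Fin 6 → V)} (hc : CoreA 𝔹 𝔸 D h) :
    ∃ (S X : Type) (P : Pal S X) (c : V → V → S ⊕ X) (h' : Ty ρ (Fin 6 → V))
      (h2 : (Fin 6 → V) → (Fin 6 → V) → S ⊕ X), StpR P 𝔸 𝔹 M c ∧ CoreR P 𝔸 𝔹 c h' h2 := by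
  obtain ⟨S, X, P, c, hL⟩ := hLNK ρ V 𝔹 M hU
  obtain ⟨h', hc1, hc2, hc3, hc4⟩ := hSPT σ ρ V 𝔸 𝔹 M hU D h hc
  obtain ⟨h2, h5, h6, h7, h8⟩ := hCR2 σ ρ V S X 𝔸 𝔹 M hU P c hL h' hc1 hc2
  refine ⟨S, X, P, c, h', h2, ⟨⟨hU.ne, hU.cnt, hU.three, hU.ar, hU.univ,
    fun l x y hx hxy => hc.sit.blind.tyi l x y hx hxy⟩, hL⟩, hc1, hc2,
    ⟨h5, h6, fun γ hγ => hPRB σ ρ V S X 𝔸 𝔹 M hU D P c hL hc.sit.blind hc.ne1 γ hγ, ?_, ?_⟩, h7⟩
  all_goals
    have hty : ∀ x y, c x x = c y y ↔ ty 𝔹 x = ty 𝔹 y := by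
      intro x y
      rw [hL.eq]
      constructor
      · rintro ⟨-, h9⟩
        funext l
        have h10 := h9 l (fun _ => true)
        simp only [ite_self] at h10
        exact propext h10
      · intro h9
        refine ⟨by simp, fun l f => ?_⟩
        simp only [ite_self]
        exact iff_of_eq (congrFun h9 l)
    have hbl : ∀ {s : S} {z : Fin 6 → V}, FBl P c s z → ∀ l, ty 𝔹 (z l) = ty 𝔹 (z 0) := by
      intro s z hz l
      exact (hty _ _).1 (by rw [hz.1 l, hz.1 0])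
  · intro s z hz _
    obtain ⟨x, y, h9⟩ := h8 z z
    have h10 := h7 z z x y h9
    have h11 : x = y := by
      have h12 := congrFun (congrFun (congrArg Prod.fst h9) 0) 1
      have h13 : (pullT h' ![z, z]).1 0 1 := by
        have h14 : h'.1 z z ↔ eqO h z z ∧ (tyO h z ∉ D ∨ z = z) := hc3 z z
        have h15 : eqO h z z := by
          obtain ⟨ψ, -, h16⟩ := hc.sit.pm (Fin 1) (fun i _ => z i)
          have h17 := (eqO_tpo (𝔹 := 𝔹) ψ 0 0).2 rfl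
          rw [h16] at h17
          exact h17
        exact h14.2 ⟨h15, Or.inr rfl⟩
      rw [← h12] at h13
      exact h13
    subst h11
    rw [← h10, ← hz.1 0, hty]
    have h12 : ty 𝔹 x = tyO h z := by
      funext l
      have h13 := congrFun (congrFun (congrArg Prod.snd h9) l) (fun _ => 0)
      exact h13.trans (propext (hc4 z l))
    rw [h12, hc.pur (ty 𝔹 (z 0)) z (hbl hz)]
  · intro s z z' hz hz' _ hd s' hs'
    obtain ⟨x, y, h9⟩ := h8 z z'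
    have h10 := h7 z z' x y h9
    rw [hs'] at h10
    have h11 : x = y := (hL.col.eq_iff x y).1 ⟨_, h10⟩
    have h12 := congrFun (congrFun (congrArg Prod.fst h9) 0) 1
    have h13 : h'.1 z z' := by
      have h14 : (tp 𝔹 ![x, y]).1 0 1 := h11
      rw [h12] at h14
      exact h14
    obtain ⟨h15, h16⟩ := (hc3 z z').1 h13
    have hzz : z ≠ z' := fun h => hd 0 0 (congrFun h 0)
    have h17 : tyO h z ∉ D := h16.resolve_right hzz
    have h18 : tyO h z = ty 𝔹 (z 0) := hc.pur _ z (hbl hz)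
    have h19 : ∀ l, ty 𝔹 (z' l) = ty 𝔹 (z 0) := fun l => by
      exact (hty _ _).1 (by rw [hz'.1 l, hz.1 0])
    rw [h18] at h17
    exact hNCT σ ρ V 𝔸 𝔹 M hU D h hc.sit hc.ne2 (ty 𝔹 (z 0)) z z' h17 (hbl hz) h19 hd h15

/-- the restriction to a core -/
theorem glue_PAR (hHH0 : T_HH0) (hSTR : T_STR) (hSTC : T_STC) (hSTN : T_STN) (hNCT : T_NCT)
    (hLNK : T_LNK) (hSPT : T_SPT) (hPRB : T_PRB) (hCR2 : T_CR2) :
    Pool.Agent.H57.AR.T_PAR := by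
  intro σ ρ V _ 𝔸 𝔹 M hB hol hK
  have hU : Un 𝔹 M := ⟨hB.ne, hB.cnt, hB.three, hB.ar, hB.univ⟩
  have hb : Blind 𝔹 𝔸 ∅ := blind_of_tyi hB.tyi
  obtain ⟨h, hh⟩ := hHH0 σ ρ V 𝔸 𝔹 M hU hol hK hb
  obtain ⟨V₁, _, 𝔸₁, 𝔹₁, h₁, m₁, n₁, hU₁, hh₁, hm₁, hn₁, hne₁⟩ := hSTR σ ρ V 𝔸 𝔹 M hU h hh
  obtain ⟨D, 𝔸₂, h₂, m₂, n₂, hh₂, hne1, hne2, hm₂, hn₂⟩ := hSTC σ ρ V₁ 𝔸₁ 𝔹₁ M hU₁ h₁ hh₁ hne₁
  obtain ⟨h₃, hh₃⟩ := hSTN σ ρ V₁ 𝔸₂ 𝔹₁ M hU₁ D h₂ hh₂ hne1 hne2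
  obtain ⟨S, X, P, c, h', h2, hst, hcore⟩ := asm_core hNCT hLNK hSPT hPRB hCR2 hU₁ hh₃
  exact ⟨ρ, V₁, S, X, inferInstance, P, 𝔸₂, 𝔹₁, M, c, h', h2, hst, hcore,
    fun n 𝕏 => ⟨fun hf => hm₂.hom (hm₁.hom hf), fun hf => hn₁.hom (hn₂.hom hf)⟩⟩

end Pool.Agent.H44.AR
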