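import Pool.Agent.H44.AR.BasicA

/-!
# All reducts, all arities: separation of the values of blind types
-/

set_option autoImplicit false

namespace Pool.Agent.H44.AR

open Pool.Agent.H68.BP Pool.Agent.H58.SF Pool.Agent.H53.GC Pool.Agent.H53.NR Pool.Agent.H53.GR
open Pool.Agent.H57.AR
open Pool.Agent.H57.EQ (Cx)
open Function

/-- the types of the tuples of values, where the values of the types in `D` are separated -/
def hSp {V : Type} {ρ : Sig} (D : Set (T1 ρ)) (h : OT ρ (Fin 6 → V)) : Ty ρ (Fin 6 → V) :=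
  (fun v w => eqO h v w ∧ (tyO h v ∉ D ∨ v = w),
    fun l z => h.1 l z ∧ ∀ i j, eqO h (z i) (z j) → (tyO h (z i) ∉ D ∨ z i = z j))

theorem ar_pat_eq_iff {Y : Type} (r : Fin 3) (x y x' y' : Y) :
    pat r x y = pat r x' y' ↔ x = x' ∧ y = y' := by
  constructor
  · intro h
    have h0 := congrFun h 0
    have h1 := congrFun h 1
    have h2 := congrFun h 2
    have h3 := congrFun h 3
    have h4 := congrFun h 4
    have h5 := congrFun h 5
    fin_cases r <;> simp_all [pat]
  · rintro ⟨rfl, rfl⟩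
    rfl

theorem pf_SPT (hSYN : T_SYN) : T_SPT := by
  classical
  intro σ ρ V _ 𝔸 𝔹 M hU D h hc
  refine ⟨hSp D h, ⟨fun k u u' huu => ?_, fun W _ G => ?_⟩, fun r => ?_, fun v w => Iff.rfl,
    fun v l => ⟨fun h1 => h1.1, fun h1 => ⟨h1, fun _ _ _ => Or.inr rfl⟩⟩⟩
  · have h1 : pullO h u = pullO h u' :=
      hc.sit.tid.gen (SameO.of_tpo (sameTp_iff.1 huu) D)
    have h2 : ∀ a b, u a = u b ↔ u' a = u' b := by
      intro a b
      have h3 : ∀ i, u a i = u b i ↔ u' a i = u' b i := fun i =>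
        eq_of_tpo (sameTp_iff.1 huu) (a, i) (b, i)
      exact ⟨fun h => funext fun i => (h3 i).1 (congrFun h i),
        fun h => funext fun i => (h3 i).2 (congrFun h i)⟩
    have h3 : ∀ a b, eqO h (u a) (u b) ↔ eqO h (u' a) (u' b) := fun a b => by
      rw [← eqO_pullO h u a b, h1, eqO_pullO]
    have h4 : ∀ a, tyO h (u a) = tyO h (u' a) := fun a => by
      rw [← tyO_pullO h u a, h1, tyO_pullO]
    refine Prod.ext (funext fun a => funext fun b => ?_) (funext fun l => funext fun z => ?_)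
    · show (eqO h (u a) (u b) ∧ (tyO h (u a) ∉ D ∨ u a = u b)) =
        (eqO h (u' a) (u' b) ∧ (tyO h (u' a) ∉ D ∨ u' a = u' b))
      rw [propext (h3 a b), h4 a, propext (h2 a b)]
    · have h5 : h.1 l (fun i => u (z i)) ↔ h.1 l (fun i => u' (z i)) :=
        iff_of_eq (congrFun (congrFun (congrArg Prod.fst h1) l) z)
      refine propext (and_congr h5 (forall_congr' fun i => forall_congr' fun j => ?_))
      rw [propext (h3 (z i) (z j)), h4 (z i), propext (h2 (z i) (z j))]
  · obtain ⟨γ, hγ1, hγ2⟩ := hc.sit.pm W G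
    let nm : W → V × Option (Fin 6 → V) := fun w =>
      (γ w, if ty 𝔹 (γ w) ∈ D then some (fun i => G i w) else none)
    have hnm : ∀ w w', nm w = nm w' ↔ (γ w = γ w' ∧
        (ty 𝔹 (γ w) ∉ D ∨ (fun i => G i w) = fun i => G i w')) := by
      intro w w'
      constructor
      · intro hn
        have e1 : γ w = γ w' := congrArg Prod.fst hn
        refine ⟨e1, ?_⟩
        by_cases hD : ty 𝔹 (γ w) ∈ D
        · have hD' : ty 𝔹 (γ w') ∈ D := e1 ▸ hD
          have h3 := congrArg Prod.snd hn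
          simp only [nm, hD, hD', if_true] at h3
          exact Or.inr (Option.some_injective _ h3)
        · exact Or.inl hD
      · rintro ⟨e1, e2⟩
        refine Prod.ext e1 ?_
        show (if ty 𝔹 (γ w) ∈ D then some (fun i => G i w) else none) =
          (if ty 𝔹 (γ w') ∈ D then some (fun i => G i w') else none)
        rcases e2 with e2 | e2
        · rw [← e1, if_neg e2, if_neg e2]
        · rw [← e1, e2]
    have : Finite (Set.range nm) := Set.finite_range nm
    obtain ⟨f, hf1, hf2⟩ := hSYN ρ V 𝔹 M hU (Set.range nm) ℕ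
      (fun n => (Finite.equivFin (Set.range nm) n).val) (fun n => n.1.1) (fun _ _ => True)
      (fun n n' hn => (Finite.equivFin (Set.range nm)).injective (Fin.ext hn)) (fun _ _ h => h)
    have hinj : Injective f := by
      intro n n' hn
      have h1 := hf1 n n'
      have h2 := hf1 n' n
      rw [hn] at h1 h2
      have h3 : (Finite.equivFin (Set.range nm) n).val = (Finite.equivFin (Set.range nm) n').val :=
        le_antisymm (not_lt.1 fun h => lt_irrefl _ (h2.2 h))
          (not_lt.1 fun h => lt_irrefl _ (h1.2 h))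
      exact (Finite.equivFin (Set.range nm)).injective (Fin.ext h3)
    let ψ : W → V := fun w => f ⟨nm w, w, rfl⟩
    have hψe : ∀ w w', ψ w = ψ w' ↔ nm w = nm w' :=
      fun w w' => ⟨fun h => congrArg Subtype.val (hinj h), fun h => congrArg f (Subtype.ext h)⟩
    have hψr : ∀ (l : Fin ρ.m) (z : Fin (ρ.ar l) → W), 𝔹 l (fun i => ψ (z i)) ↔
        (𝔹 l (fun i => γ (z i)) ∧ ∀ i j, γ (z i) = γ (z j) → nm (z i) = nm (z j)) := by
      intro l z
      rw [show (fun i => ψ (z i)) = fun i => f ⟨nm (z i), z i, rfl⟩ from rfl, hf2]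
      refine and_congr Iff.rfl (forall_congr' fun i => forall_congr' fun j => ?_)
      constructor
      · rintro (h1 | ⟨-, h1⟩) h2
        · exact congrArg Subtype.val h1
        · exact absurd h2 h1
      · intro h1
        by_cases h2 : γ (z i) = γ (z j)
        · exact Or.inl (Subtype.ext (h1 h2))
        · exact Or.inr ⟨trivial, h2⟩
    have hty : ∀ w, ty 𝔹 (ψ w) = ty 𝔹 (γ w) := fun w => funext fun l =>
      propext ((hψr l fun _ => w).trans ⟨fun h => h.1, fun h => ⟨h, fun _ _ _ => rfl⟩⟩)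
    have hSD : SameD 𝔹 D γ ψ := by
      refine ⟨hty, fun a b ha hb => ?_, fun l z hz => ?_⟩
      · rw [hψe, hnm]
        exact ⟨fun h => h.1, fun h => ⟨h, Or.inl ha⟩⟩
      · rw [hψr]
        exact ⟨fun h => h.1, fun h => ⟨h, fun i j hij => (hnm _ _).2 ⟨hij, Or.inl (hz i)⟩⟩⟩
    have hγt : ∀ w, tyO h (fun i => G i w) = ty 𝔹 (γ w) := by
      intro w
      have h1 := congrArg (fun t => tyO t w) hγ2
      exact h1.symm
    have hγq : ∀ w w', eqO h (fun i => G i w) (fun i => G i w') ↔ γ w = γ w' := by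
      intro w w'
      rw [← eqO_tpo (𝔹 := 𝔹) γ w w', hγ2]
      exact Iff.rfl
    refine ⟨ψ, fun l z hz => hc.sit.blind l _ _ (hγ1 l z hz) (hSD.comp z), ?_⟩
    refine Prod.ext (funext fun a => funext fun b => propext ?_)
      (funext fun l => funext fun z => propext ?_)
    · show ψ a = ψ b ↔ (eqO h (fun i => G i a) (fun i => G i b) ∧
        (tyO h (fun i => G i a) ∉ D ∨ (fun i => G i a) = fun i => G i b))
      rw [hψe, hnm, hγt, hγq]
    · show 𝔹 l (fun i => ψ (z i)) ↔ (h.1 l (fun i => fun c => G c (z i)) ∧ ∀ i j,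
        eqO h (fun c => G c (z i)) (fun c => G c (z j)) →
          (tyO h (fun c => G c (z i)) ∉ D ∨ (fun c => G c (z i)) = fun c => G c (z j)))
      rw [hψr]
      have h5 : 𝔹 l (fun i => γ (z i)) ↔ h.1 l (fun i => fun c => G c (z i)) :=
        iff_of_eq (congrFun (congrFun (congrArg Prod.fst hγ2) l) z)
      refine and_congr h5 (forall_congr' fun i => forall_congr' fun j => ?_)
      rw [hnm, hγt, hγq]
      exact ⟨fun h1 h2 => (h1 h2).2, fun h1 h2 => ⟨h2, h1 h2⟩⟩
  · have h1 := hc.sit.exact r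
    have h3 : ∀ p q : V × V, eqO h (pat r p.1 p.2) (pat r q.1 q.2) ↔
        eqO h (pat 0 p.1 p.2) (pat 0 q.1 q.2) := fun p q => by
      rw [← eqO_pullO h (fun p : V × V => pat r p.1 p.2) p q, h1, eqO_pullO]
    have h4 : ∀ p : V × V, tyO h (pat r p.1 p.2) = tyO h (pat 0 p.1 p.2) := fun p => by
      rw [← tyO_pullO h (fun p : V × V => pat r p.1 p.2) p, h1, tyO_pullO]
    have h2 : ∀ p q : V × V, pat r p.1 p.2 = pat r q.1 q.2 ↔ pat 0 p.1 p.2 = pat 0 q.1 q.2 :=
      fun p q => by rw [ar_pat_eq_iff, ar_pat_eq_iff]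
    refine Prod.ext (funext fun p => funext fun q => ?_) (funext fun l => funext fun z => ?_)
    · show (eqO h (pat r p.1 p.2) (pat r q.1 q.2) ∧
        (tyO h (pat r p.1 p.2) ∉ D ∨ pat r p.1 p.2 = pat r q.1 q.2)) =
        (eqO h (pat 0 p.1 p.2) (pat 0 q.1 q.2) ∧
        (tyO h (pat 0 p.1 p.2) ∉ D ∨ pat 0 p.1 p.2 = pat 0 q.1 q.2))
      rw [propext (h3 p q), h4 p, propext (h2 p q)]
    · have h5 : h.1 l (fun i => pat r (z i).1 (z i).2) ↔ h.1 l (fun i => pat 0 (z i).1 (z i).2) :=
        iff_of_eq (congrFun (congrFun (congrArg Prod.fst h1) l) z)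
      refine propext (and_congr h5 (forall_congr' fun i => forall_congr' fun j => ?_))
      rw [propext (h3 (z i) (z j)), h4 (z i), propext (h2 (z i) (z j))]

end Pool.Agent.H44.AR
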