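import Pool.Agent.H44.AR.DefsA

/-!
# All reducts, all arities: the restriction to a core, targets
-/

set_option autoImplicit false
set_option linter.unusedVariables false

namespace Pool.Agent.H44.AR

open Pool.Agent.H68.BP Pool.Agent.H58.SF Pool.Agent.H53.GC Pool.Agent.H53.NR Pool.Agent.H53.GR
open Pool.Agent.H57.AR
open Pool.Agent.H57.SO (Pal Col vt Sb FBl)
open Pool.Agent.H57.EQ (Cx)
open Function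

/-! ### Configurations -/

/-- Systems of copies: the name `n` stands for the element `u n`; a tuple of names is in a relation
if and only if the tuple of the elements is, and different names in this tuple are related by `r`
and stand for different elements. -/
def T_SYN : Prop :=
  ∀ (ρ : Sig) (V : Type) [LinearOrder V] (𝔹 : Str ρ V) (M : ℕ), Un 𝔹 M →
    ∀ (W R : Type) [Finite W] [LinearOrder R] (rk : W → R) (u : W → V) (r : W → W → Prop),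
      Injective rk → (∀ x y, r x y → r y x) →
      ∃ f : W → V, (∀ x y, f x < f y ↔ rk x < rk y) ∧
        ∀ (l : Fin ρ.m) (z : Fin (ρ.ar l) → W), 𝔹 l (fun i => f (z i)) ↔
          (𝔹 l (fun i => u (z i)) ∧
            ∀ i j, z i = z j ∨ (r (z i) (z j) ∧ u (z i) ≠ u (z j)))

/-- Tuples in arbitrary orders. -/
def T_ORD : Prop :=
  ∀ (ρ : Sig) (V : Type) [LinearOrder V] (𝔹 : Str ρ V) (M : ℕ), Un 𝔹 M →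
    ∀ (W R : Type) [Finite W] [LinearOrder R] (x : W → V) (rk : W → R),
      (∀ a b, rk a = rk b ↔ x a = x b) →
      ∃ x' : W → V, tp 𝔹 x' = tp 𝔹 x ∧ ∀ a b, x' a < x' b ↔ rk a < rk b

/-- Realization. -/
def T_RLZ : Prop :=
  ∀ (ρ : Sig) (V : Type) [LinearOrder V] (𝔹 : Str ρ V) (M : ℕ), Un 𝔹 M →
    ∀ (W : Type) [Finite W] (q : OT ρ W),
      (∀ p : Fin M → W, ∃ x : Fin M → V, tpo 𝔹 x = pullO q p) → ∃ ψ : W → V, tpo 𝔹 ψ = q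

/-- Free pairs and blocks. -/
def T_FRB : Prop :=
  ∀ (ρ : Sig) (V : Type) [LinearOrder V] (𝔹 : Str ρ V) (M : ℕ), Un 𝔹 M →
    (∀ x y : V, ∃ p : Fin 2 → V, tpo 𝔹 p = frp (ty 𝔹 x) (ty 𝔹 y)) ∧
    ∀ x : V, ∃ g : Fin 6 → V, Gb 𝔹 g ∧ ∀ l, ty 𝔹 (g l) = ty 𝔹 x

/-! ### The canonical Olšák map -/

/-- Ramsey property and compactness. -/
def T_CANR : Prop :=
  ∀ (ρ ρ' : Sig) (V I : Type) [LinearOrder V] [Finite I] (𝔹 : Str ρ V), Nonempty V →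
    (∀ l, 1 ≤ ρ'.ar l) → RamFin 𝔹 →
    ∀ R : (k : ℕ) → (Fin k → I → V) → OT ρ' (Fin k) → Prop,
      (∀ (k : ℕ) (v v' : Fin k → I → V) (t : OT ρ' (Fin k)),
        SameTp 𝔹 (fun q : Fin k × I => v q.1 q.2) (fun q => v' q.1 q.2) → R k v t → R k v' t) →
      (∀ (W : Type) [Finite W] (G : I → W → V), (∀ u w, (∀ i, G i u = G i w) → u = w) →
        ∃ t : OT ρ' W, ∀ (k : ℕ) (z : Fin k → W), R k (fun a i => G i (z a)) (pullO t z)) →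
      ∃ h : OT ρ' (I → V), (∀ (k : ℕ) (v v' : Fin k → I → V),
          SameTp 𝔹 (fun q : Fin k × I => v q.1 q.2) (fun q => v' q.1 q.2) →
            pullO h v = pullO h v') ∧
        ∀ (k : ℕ) (v : Fin k → I → V), R k v (pullO h v)

/-- The map on the sixth power, for any finite colouring of tuples. -/
def T_PWG : Prop :=
  ∀ (σ : Sig) (V Z : Type) [Finite Z] (𝔸 : Str σ V) (M : ℕ) (χ : (Fin M → V) → Z), Countable V →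
    Nonempty V → 1 ≤ M → Oligo 𝔸 → ¬ PPConstructsK3 𝔸 →
    ∃ h : (Fin M → Fin 6 → V) → Z,
      (∀ (s : Option (Fin σ.m)) (v : Fin (arP σ M s) → Fin 6 → V),
        (∀ c, relP 𝔸 M s (fun a => v a c)) →
        ∃ x : Fin (arP σ M s) → V, relP 𝔸 M s x ∧
          ∀ α : Fin M → Fin (arP σ M s), χ (fun i => x (α i)) = h (fun i => v (α i))) ∧
      ∀ (r : Fin 3) (x y : Fin M → V), h (fun i => pat r (x i) (y i)) =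
        h (fun i => pat 0 (x i) (y i))

/-- The Olšák map with the ordered types of its values. -/
def T_PWO : Prop :=
  ∀ (σ ρ : Sig) (V : Type) [LinearOrder V] (𝔸 : Str σ V) (𝔹 : Str ρ V) (M : ℕ), Un 𝔹 M →
    Oligo 𝔸 → ¬ PPConstructsK3 𝔸 → Blind 𝔹 𝔸 ∅ →
    ∃ h : OT ρ (Fin 6 → V), PM 𝔹 𝔸 h ∧ ExaO h

/-- the canonical Olšák map -/
def T_HH0 : Prop :=
  ∀ (σ ρ : Sig) (V : Type) [LinearOrder V] (𝔸 : Str σ V) (𝔹 : Str ρ V) (M : ℕ), Un 𝔹 M →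
    Oligo 𝔸 → ¬ PPConstructsK3 𝔸 → Blind 𝔹 𝔸 ∅ → ∃ h, Sit 𝔹 𝔸 ∅ h

/-! ### Canonical unary maps -/

/-- composition of a canonical Olšák map with canonical homomorphisms -/
def T_PRE : Prop :=
  ∀ (σ ρ ρ' : Sig) (V V' : Type) [LinearOrder V] [LinearOrder V'] (𝔸 : Str σ V) (𝔹 : Str ρ V)
    (𝔸' : Str σ V') (𝔹' : Str ρ' V') (h : OT ρ (Fin 6 → V))
    (m : (k : ℕ) → OT ρ (Fin k) → OT ρ' (Fin k)) (m' : (k : ℕ) → OT ρ' (Fin k) → OT ρ (Fin k)),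
    Nonempty V' → (∀ l, 1 ≤ ρ'.ar l) → PM 𝔹 𝔸 h → TID 𝔹 ∅ h → ExaO h → UM 𝔹 𝔹' 𝔸 𝔸' m →
    UM 𝔹' 𝔹 𝔸' 𝔸 m' →
    ∃ h' : OT ρ' (Fin 6 → V'), PM 𝔹' 𝔸' h' ∧ TID 𝔹' ∅ h' ∧ ExaO h'

/-- Identified elements: the values depend only on the types. -/
def T_COL : Prop :=
  ∀ (σ ρ ρ' : Sig) (V V' : Type) [LinearOrder V] [LinearOrder V'] (𝔸 : Str σ V) (𝔹 : Str ρ V)
    (𝔸' : Str σ V') (𝔹' : Str ρ' V') (M : ℕ), Un 𝔹 M →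
    ∀ (m : (k : ℕ) → OT ρ (Fin k) → OT ρ' (Fin k)) (D : Set (T1 ρ)), UM 𝔹 𝔹' 𝔸 𝔸' m →
      (∀ x, ty 𝔹 x ∈ D → Clp m (ty 𝔹 x)) → ∀ (k : ℕ) (u u' : Fin k → V), SameO 𝔹 D u u' →
        m k (tpo 𝔹 u) = m k (tpo 𝔹 u')

/-- the structure with arbitrary elements of the types in `D` -/
def T_SHP : Prop :=
  ∀ (σ ρ : Sig) (V : Type) [LinearOrder V] (𝔸 : Str σ V) (𝔹 : Str ρ V) (M : ℕ), Un 𝔹 M →
    ∀ (m : (k : ℕ) → OT ρ (Fin k) → OT ρ (Fin k)) (D : Set (T1 ρ)), Blind 𝔹 𝔸 ∅ →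
      UM 𝔹 𝔹 𝔸 𝔸 m → Fix 𝔹 D m → Blind 𝔹 (shp 𝔹 𝔸 D) D ∧
        UM 𝔹 𝔹 𝔸 (shp 𝔹 𝔸 D) (fun _ t => t) ∧ UM 𝔹 𝔹 (shp 𝔹 𝔸 D) 𝔸 m

/-- A maximal set of identified types. -/
def T_MAX : Prop :=
  ∀ (σ ρ : Sig) (V : Type) [LinearOrder V] (𝔸 : Str σ V) (𝔹 : Str ρ V),
    ∃ (m : (k : ℕ) → OT ρ (Fin k) → OT ρ (Fin k)) (D : Set (T1 ρ)), UM 𝔹 𝔹 𝔸 𝔸 m ∧ Fix 𝔹 D m ∧
      ∀ m', UM 𝔹 𝔹 𝔸 𝔸 m' → Fix 𝔹 D m' → ∀ x, Clp m' (ty 𝔹 x) → ty 𝔹 x ∈ D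

/-- the properties `NE1` and `NE2` for the structure with arbitrary elements of types in `D` -/
def T_NEE : Prop :=
  ∀ (σ ρ : Sig) (V : Type) [LinearOrder V] (𝔸 : Str σ V) (𝔹 : Str ρ V) (M : ℕ), Un 𝔹 M →
    ∀ (m : (k : ℕ) → OT ρ (Fin k) → OT ρ (Fin k)) (D : Set (T1 ρ)), NE1 𝔹 𝔸 → UM 𝔹 𝔹 𝔸 𝔸 m →
      Fix 𝔹 D m →
      (∀ m', UM 𝔹 𝔹 𝔸 𝔸 m' → Fix 𝔹 D m' → ∀ x, Clp m' (ty 𝔹 x) → ty 𝔹 x ∈ D) →
      UM 𝔹 𝔹 𝔸 (shp 𝔹 𝔸 D) (fun _ t => t) → UM 𝔹 𝔹 (shp 𝔹 𝔸 D) 𝔸 m →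
      NE1 𝔹 (shp 𝔹 𝔸 D) ∧ NE2 𝔹 (shp 𝔹 𝔸 D) D

/-- Maps which depend only on the types at the elements whose types are in `D`. -/
def T_BLD : Prop :=
  ∀ (ρ ρ' : Sig) (V I : Type) [LinearOrder V] [Finite I] (𝔹 : Str ρ V) (M : ℕ), Un 𝔹 M →
    (∀ l, 1 ≤ ρ'.ar l) → ∀ (D : Set (T1 ρ)) (h : OT ρ' (I → V)), TID 𝔹 ∅ h →
      ∃ h' : OT ρ' (I → V), TID 𝔹 D h' ∧
        ∀ K : Finset V, ∃ g : V → V, SameD 𝔹 D (fun x : K => (x : V)) (fun x : K => g x) ∧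
          ∀ (k : ℕ) (v : Fin k → I → V), (∀ a i, v a i ∈ K) →
            pullO h' v = pullO h (fun a i => g (v a i))

/-- restriction to a set of types of elements -/
def T_SUB : Prop :=
  ∀ (ρ : Sig) (V : Type) [LinearOrder V] (𝔹 : Str ρ V) (M : ℕ), Un 𝔹 M → ∀ S : Set (T1 ρ),
    (∃ x, ty 𝔹 x ∈ S) → Un (pull 𝔹 (fun v : {v : V // ty 𝔹 v ∈ S} => (v : V))) M

/-! ### The steps -/

/-- Passing to a set of types which cannot be made smaller. -/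
def T_STR : Prop :=
  ∀ (σ ρ : Sig) (V : Type) [LinearOrder V] (𝔸 : Str σ V) (𝔹 : Str ρ V) (M : ℕ), Un 𝔹 M →
    ∀ h, Sit 𝔹 𝔸 ∅ h → ∃ (V' : Type) (_ : LinearOrder V') (𝔸' : Str σ V') (𝔹' : Str ρ V')
      (h' : OT ρ (Fin 6 → V')) (m m' : (k : ℕ) → OT ρ (Fin k) → OT ρ (Fin k)),
      Un 𝔹' M ∧ Sit 𝔹' 𝔸' ∅ h' ∧ UM 𝔹 𝔹' 𝔸 𝔸' m ∧ UM 𝔹' 𝔹 𝔸' 𝔸 m' ∧ NE1 𝔹' 𝔸'

/-- the second step -/
def T_STC : Prop :=
  ∀ (σ ρ : Sig) (V : Type) [LinearOrder V] (𝔸 : Str σ V) (𝔹 : Str ρ V) (M : ℕ), Un 𝔹 M →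
    ∀ h, Sit 𝔹 𝔸 ∅ h → NE1 𝔹 𝔸 → ∃ (D : Set (T1 ρ)) (𝔸' : Str σ V) (h' : OT ρ (Fin 6 → V))
      (m m' : (k : ℕ) → OT ρ (Fin k) → OT ρ (Fin k)), Sit 𝔹 𝔸' D h' ∧ NE1 𝔹 𝔸' ∧ NE2 𝔹 𝔸' D ∧
        UM 𝔹 𝔹 𝔸 𝔸' m ∧ UM 𝔹 𝔹 𝔸' 𝔸 m'

/-- the configuration of blocks: the block `Q x`, which consists of elements of the type of `x`,
is attached to the elements `x`, each coordinate is a copy -/
structure Blk {V W I : Type} {ρ : Sig} [LinearOrder V] (𝔹 : Str ρ V) (Q : V → I → V) (G : W → V)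
    (z : W → I → V) : Prop where
  lt : ∀ a l b l', z a l < z b l' ↔
    Q (G a) l < Q (G b) l' ∨ (Q (G a) l = Q (G b) l' ∧ G a < G b)
  rel : ∀ (r : Fin ρ.m) (w : Fin (ρ.ar r) → W × I), 𝔹 r (fun i => z (w i).1 (w i).2) ↔
    ((∀ i j, G (w i).1 = G (w j).1) ∧ 𝔹 r (fun i => Q (G (w i).1) (w i).2)) ∨
    ∃ l, (∀ i, Q (G (w i).1) (w i).2 = Q (G (w i).1) l) ∧ 𝔹 r (fun i => G (w i).1)

/-- existence of the configuration of blocks: the block `q` for the elements of type `s`, and free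
blocks for the other elements -/
def T_BLC : Prop :=
  ∀ (ρ : Sig) (V : Type) [LinearOrder V] (𝔹 : Str ρ V) (M : ℕ), Un 𝔹 M →
    ∀ (s : T1 ρ) (q : Fin 6 → V) (Q : V → Fin 6 → V), (∀ l, ty 𝔹 (q l) = s) →
      (∀ x, ty 𝔹 x = s → Q x = q) →
      (∀ x, ty 𝔹 x ≠ s → Gb 𝔹 (Q x) ∧ ∀ l, ty 𝔹 (Q x l) = ty 𝔹 x) →
      (∀ x y, ty 𝔹 x = ty 𝔹 y → Q x = Q y) →
      ∀ (W : Type) [Finite W] (G : W → V), ∃ z : W → Fin 6 → V, Blk 𝔹 Q G z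

/-- unary maps given by blocks: the block `q` for the elements of type `s`, and free blocks for the
other elements -/
def T_UKM : Prop :=
  ∀ (σ ρ : Sig) (V : Type) [LinearOrder V] (𝔸 : Str σ V) (𝔹 : Str ρ V) (M : ℕ), Un 𝔹 M →
    ∀ (D : Set (T1 ρ)) (h : OT ρ (Fin 6 → V)), Sit 𝔹 𝔸 D h →
      ∀ (s : T1 ρ) (q : Fin 6 → V) (Q : V → Fin 6 → V), (∀ l, ty 𝔹 (q l) = s) →
      (∀ x, ty 𝔹 x = s → Q x = q) →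
      (∀ x, ty 𝔹 x ≠ s → Gb 𝔹 (Q x) ∧ ∀ l, ty 𝔹 (Q x l) = ty 𝔹 x) →
      (∀ x y, ty 𝔹 x = ty 𝔹 y → Q x = Q y) →
      ∃ m, UM 𝔹 𝔹 𝔸 𝔸 m ∧ (∀ x, tm m (ty 𝔹 x) = tyO h (Q x)) ∧
        ∀ z z', Twin 𝔹 q z z' → eqO h z z' → Clp m s

/-- The type of the value of a block of elements of type `s` depends only on `s`. -/
def T_PRM : Prop :=
  ∀ (σ ρ : Sig) (V : Type) [LinearOrder V] (𝔸 : Str σ V) (𝔹 : Str ρ V) (M : ℕ), Un 𝔹 M →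
    ∀ (D : Set (T1 ρ)) (h : OT ρ (Fin 6 → V)), Sit 𝔹 𝔸 D h → NE1 𝔹 𝔸 →
      ∀ (s : T1 ρ) (q q' : Fin 6 → V), (∀ l, ty 𝔹 (q l) = s) → (∀ l, ty 𝔹 (q' l) = s) →
        tyO h q = tyO h q'

/-- the third step: normalization -/
def T_STN : Prop :=
  ∀ (σ ρ : Sig) (V : Type) [LinearOrder V] (𝔸 : Str σ V) (𝔹 : Str ρ V) (M : ℕ), Un 𝔹 M →
    ∀ (D : Set (T1 ρ)) (h : OT ρ (Fin 6 → V)), Sit 𝔹 𝔸 D h → NE1 𝔹 𝔸 → NE2 𝔹 𝔸 D →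
      ∃ h', CoreA 𝔹 𝔸 D h'

/-- Blocks of elements of a type which is not in `D`, without common elements, are not
identified. -/
def T_NCT : Prop :=
  ∀ (σ ρ : Sig) (V : Type) [LinearOrder V] (𝔸 : Str σ V) (𝔹 : Str ρ V) (M : ℕ), Un 𝔹 M →
    ∀ (D : Set (T1 ρ)) (h : OT ρ (Fin 6 → V)), Sit 𝔹 𝔸 D h → NE2 𝔹 𝔸 D →
      ∀ (s : T1 ρ) (z z' : Fin 6 → V), s ∉ D → (∀ l, ty 𝔹 (z l) = s) → (∀ l, ty 𝔹 (z' l) = s) →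
        (∀ l l', z l ≠ z' l') → ¬ eqO h z z'

/-! ### The colouring of the pairs -/

/-- the colouring of the pairs -/
def T_LNK : Prop :=
  ∀ (ρ : Sig) (V : Type) [LinearOrder V] (𝔹 : Str ρ V) (M : ℕ), Un 𝔹 M →
    ∃ (S X : Type) (P : Pal S X) (c : V → V → S ⊕ X), Lnk P 𝔹 c

/-- The values of the types in `D` are separated. -/
def T_SPT : Prop :=
  ∀ (σ ρ : Sig) (V : Type) [LinearOrder V] (𝔸 : Str σ V) (𝔹 : Str ρ V) (M : ℕ), Un 𝔹 M →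
    ∀ (D : Set (T1 ρ)) (h : OT ρ (Fin 6 → V)), CoreA 𝔹 𝔸 D h →
      ∃ h' : Ty ρ (Fin 6 → V), CanR 𝔸 𝔹 (Fin 6) h' ∧ ExaT h' ∧
        (∀ v w, h'.1 v w ↔ (eqO h v w ∧ (tyO h v ∉ D ∨ v = w))) ∧
        ∀ v l, h'.2 l (fun _ => v) ↔ h.1 l (fun _ => v)

/-- The actions of unary maps on the types are permutations. -/
def T_PRB : Prop :=
  ∀ (σ ρ : Sig) (V S X : Type) [LinearOrder V] (𝔸 : Str σ V) (𝔹 : Str ρ V) (M : ℕ), Un 𝔹 M →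
    ∀ (D : Set (T1 ρ)) (P : Pal S X) (c : V → V → S ⊕ X), Lnk P 𝔹 c → Blind 𝔹 𝔸 D →
      NE1 𝔹 𝔸 → ∀ γ : S → S, Sb 𝔸 c γ → Bijective γ

/-- the colours of the pairs of values -/
def T_CR2 : Prop :=
  ∀ (σ ρ : Sig) (V S X : Type) [LinearOrder V] (𝔸 : Str σ V) (𝔹 : Str ρ V) (M : ℕ), Un 𝔹 M →
    ∀ (P : Pal S X) (c : V → V → S ⊕ X), Lnk P 𝔹 c → ∀ h' : Ty ρ (Fin 6 → V),
      CanR 𝔸 𝔹 (Fin 6) h' → ExaT h' → ∃ h2 : (Fin 6 → V) → (Fin 6 → V) → S ⊕ X,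
        Can2 𝔸 𝔹 c (Fin 6) h2 ∧ Pool.Agent.H57.SO.Exa h2 ∧
        (∀ (v w : Fin 6 → V) (x y : V), tp 𝔹 ![x, y] = pullT h' ![v, w] → c x y = h2 v w) ∧
        ∀ (v w : Fin 6 → V), ∃ x y : V, tp 𝔹 ![x, y] = pullT h' ![v, w]

end Pool.Agent.H44.AR
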