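import Pool.Agent.H44.AR.BasicA

/-!
# All reducts, all arities: unary maps given by blocks
-/

set_option autoImplicit false

namespace Pool.Agent.H44.AR

open Pool.Agent.H68.BP Pool.Agent.H58.SF Pool.Agent.H53.GC Pool.Agent.H53.NR Pool.Agent.H53.GR
open Pool.Agent.H57.AR
open Pool.Agent.H57.EQ (Cx)
open Function

section blk

variable {V W W' : Type} [LinearOrder V] {ρ : Sig} {𝔹 : Str ρ V} {Q : V → Fin 6 → V}

/-- the configuration of blocks is determined up to types -/
theorem Blk.tpo_eq (hQ : ∀ x y, ty 𝔹 x = ty 𝔹 y → Q x = Q y) {G G' : W → V}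
    {z z' : W → Fin 6 → V} (hG : tpo 𝔹 G = tpo 𝔹 G') (hz : Blk 𝔹 Q G z) (hz' : Blk 𝔹 Q G' z') :
    tpo 𝔹 (fun q : W × Fin 6 => z q.1 q.2) = tpo 𝔹 (fun q : W × Fin 6 => z' q.1 q.2) := by
  have hQQ : ∀ a, Q (G a) = Q (G' a) := fun a => hQ _ _ (ty_of_tpo hG a)
  have hlt : ∀ a b, G a < G b ↔ G' a < G' b := (tpo_eq_iff.1 hG).2
  have heq : ∀ a b, G a = G b ↔ G' a = G' b := eq_of_tpo hG
  refine tpo_eq_iff.2 ⟨fun r w => ?_, fun a b => ?_⟩
  · rw [hz.rel r w, hz'.rel r w]
    refine or_congr (and_congr (forall_congr' fun i => forall_congr' fun j => heq _ _) ?_)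
      (exists_congr fun l => and_congr (forall_congr' fun i => ?_) ?_)
    · simp only [hQQ]
    · rw [hQQ]
    · exact (tpo_eq_iff.1 hG).1 r fun i => (w i).1
  · show z a.1 a.2 < z b.1 b.2 ↔ z' a.1 a.2 < z' b.1 b.2
    rw [hz.lt, hz'.lt, hQQ, hQQ, hlt]

theorem Blk.comp {G : W → V} {z : W → Fin 6 → V} (hz : Blk 𝔹 Q G z) (s : W' → W) :
    Blk 𝔹 Q (fun a => G (s a)) (fun a => z (s a)) :=
  ⟨fun a l b l' => hz.lt (s a) l (s b) l', fun r w => hz.rel r fun i => (s (w i).1, (w i).2)⟩

/-- each coordinate is a copy -/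
theorem Blk.coord (hQt : ∀ x l, ty 𝔹 (Q x l) = ty 𝔹 x) (har : ∀ l, 1 ≤ ρ.ar l)
    (hQ : ∀ x y, ty 𝔹 x = ty 𝔹 y → Q x = Q y) {G : W → V}
    {z : W → Fin 6 → V} (hz : Blk 𝔹 Q G z) (l : Fin 6) : SameD 𝔹 ∅ G (fun a => z a l) := by
  have hconst : ∀ (r : Fin ρ.m) (w : Fin (ρ.ar r) → W), (∀ i j, G (w i) = G (w j)) →
      (𝔹 r (fun i => Q (G (w i)) l) ↔ 𝔹 r (fun i => G (w i))) := by
    intro r w hw
    have h0 : 0 < ρ.ar r := har r
    have e1 : (fun i => G (w i)) = fun _ => G (w ⟨0, h0⟩) := funext fun i => hw i _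
    have e2 : (fun i => Q (G (w i)) l) = fun _ => Q (G (w ⟨0, h0⟩)) l :=
      funext fun i => by rw [hw i ⟨0, h0⟩]
    rw [e1, e2]
    exact iff_of_eq (congrFun (hQt (G (w ⟨0, h0⟩)) l) r)
  have hrel : ∀ (r : Fin ρ.m) (w : Fin (ρ.ar r) → W),
      𝔹 r (fun i => z (w i) l) ↔ 𝔹 r (fun i => G (w i)) := by
    intro r w
    rw [hz.rel r fun i => (w i, l)]
    constructor
    · rintro (⟨h1, h2⟩ | ⟨l', h1, h2⟩)
      · exact (hconst r w h1).1 h2
      · exact h2
    · intro h1
      exact Or.inr ⟨l, fun _ => rfl, h1⟩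
  have hty : ∀ a, ty 𝔹 (z a l) = ty 𝔹 (G a) := fun a => funext fun r =>
    propext (hrel r fun _ => a)
  refine ⟨hty, fun a b _ _ => ?_, fun r w _ => hrel r w⟩
  constructor
  · intro h
    have h1 : ¬ (Q (G a) l < Q (G b) l ∨ (Q (G a) l = Q (G b) l ∧ G a < G b)) := by
      rw [← hz.lt a l b l, h]
      exact lt_irrefl _
    have h2 : ¬ (Q (G b) l < Q (G a) l ∨ (Q (G b) l = Q (G a) l ∧ G b < G a)) := by
      rw [← hz.lt b l a l, h]
      exact lt_irrefl _
    have h3 : Q (G a) l = Q (G b) l :=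
      le_antisymm (not_lt.1 fun h' => h2 (Or.inl h')) (not_lt.1 fun h' => h1 (Or.inl h'))
    exact le_antisymm (not_lt.1 fun h' => h2 (Or.inr ⟨h3.symm, h'⟩))
      (not_lt.1 fun h' => h1 (Or.inr ⟨h3, h'⟩))
  · intro h
    have h1 : ¬ z a l < z b l := by
      rw [hz.lt, h]
      rintro (h' | h')
      · exact lt_irrefl _ h'
      · exact lt_irrefl _ h'.2
    have h2 : ¬ z b l < z a l := by
      rw [hz.lt, h]
      rintro (h' | h')
      · exact lt_irrefl _ h'
      · exact lt_irrefl _ h'.2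
    exact le_antisymm (not_lt.1 h2) (not_lt.1 h1)

end blk

theorem pf_UKM (hBLC : T_BLC) (hFRB : T_FRB) : T_UKM := by
  classical
  intro σ ρ V _ 𝔸 𝔹 M hU D h hh s q Q hq hQs hQn hQ
  have har : ∀ l, 1 ≤ ρ.ar l := fun l => (hU.ar l).1
  have hQt : ∀ x l, ty 𝔹 (Q x l) = ty 𝔹 x := by
    intro x l
    by_cases hx : ty 𝔹 x = s
    · rw [hQs x hx, hq l, hx]
    · exact (hQn x hx).2 l
  have hex : ∀ (W : Type) [Finite W] (G : W → V), ∃ z : W → Fin 6 → V, Blk 𝔹 Q G z :=
    fun W _ G => hBLC ρ V 𝔹 M hU s q Q hq hQs hQn hQ W G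
  let m : (k : ℕ) → OT ρ (Fin k) → OT ρ (Fin k) := fun k t =>
    if hu : ∃ u : Fin k → V, tpo 𝔹 u = t then pullO h (hex (Fin k) hu.choose).choose else t
  have hm : ∀ (k : ℕ) (u : Fin k → V) (z : Fin k → Fin 6 → V), Blk 𝔹 Q u z →
      m k (tpo 𝔹 u) = pullO h z := by
    intro k u z hz
    have hu : ∃ u' : Fin k → V, tpo 𝔹 u' = tpo 𝔹 u := ⟨u, rfl⟩
    have e : m k (tpo 𝔹 u) = pullO h (hex (Fin k) hu.choose).choose := dif_pos hu
    rw [e]
    exact hh.tid.gen (SameO.of_tpo
      (Blk.tpo_eq hQ hu.choose_spec (hex (Fin k) hu.choose).choose_spec hz) D)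
  have hUM : UM 𝔹 𝔹 𝔸 𝔸 m := by
    intro W _ G
    obtain ⟨z, hz⟩ := hex W G
    obtain ⟨ψ, h1, h2⟩ := hh.pm W (fun i w => z w i)
    refine ⟨ψ, fun l v hv => h1 l v fun i => ?_, fun k v => ?_⟩
    · exact hh.blind l _ _ hv (((Blk.coord hQt har hQ hz i).comp v).mono fun a ha => ha.elim)
    · rw [hm k _ _ (hz.comp v), ← pullO_tpo, h2]
      rfl
  refine ⟨m, hUM, fun x => ?_, fun z z' hT he => ?_⟩
  · obtain ⟨z, hz⟩ := hex (Fin 1) (fun _ => x)
    have h1 : tpo 𝔹 (z 0) = tpo 𝔹 (Q x) := by
      refine tpo_eq_iff.2 ⟨fun r w => ?_, fun a b => ?_⟩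
      · rw [hz.rel r fun i => (0, w i)]
        constructor
        · rintro (⟨-, h2⟩ | ⟨l, h2, h3⟩)
          · exact h2
          · have e1 : (fun i => Q x (w i)) = fun _ => Q x l := funext h2
            rw [e1]
            exact (iff_of_eq (congrFun (hQt x l) r)).2 h3
        · intro h2
          exact Or.inl ⟨fun _ _ => rfl, h2⟩
      · rw [hz.lt 0 a 0 b]
        exact ⟨fun h2 => h2.resolve_right fun h3 => lt_irrefl _ h3.2, Or.inl⟩
    have h2 : pullO h (fun _ : Fin 1 => z 0) = pullO h (fun _ : Fin 1 => Q x) :=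
      hh.tid.gen (SameO.of_tpo (tpo_comp h1 (fun q : Fin 1 × Fin 6 => q.2)) D)
    have h3 : z = fun _ => z 0 := funext fun i => by rw [Subsingleton.elim i 0]
    have h4 := hm 1 _ z hz
    unfold tm
    rw [← tpo_const, h4, h3, h2]
    rfl
  · obtain ⟨p, hp⟩ := (hFRB ρ V 𝔹 M hU).1 (q 0) (q 0)
    rw [hq 0] at hp
    obtain ⟨y, hy⟩ := hex (Fin 2) p
    have hp01 : p 0 < p 1 := by
      have h1 := congrFun (congrFun (congrArg Prod.snd hp) 0) 1
      exact (iff_of_eq h1).2 ⟨rfl, rfl⟩
    have hpt : ∀ a, ty 𝔹 (p a) = s := by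
      intro a
      have h1 : ty 𝔹 (p a) = tyO (frp s s) a := by rw [← hp]; rfl
      rw [h1]
      funext l
      refine propext ⟨?_, fun h2 => ?_⟩
      · rintro (h2 | h2)
        · exact h2.2
        · exact h2.2
      · fin_cases a
        · exact Or.inl ⟨fun _ => rfl, h2⟩
        · exact Or.inr ⟨fun _ => rfl, h2⟩
    have hQp : ∀ a, Q (p a) = q := fun a => hQs _ (hpt a)
    have hfree : ∀ (r : Fin ρ.m) (w : Fin (ρ.ar r) → Fin 2), 𝔹 r (fun i => p (w i)) →
        ∀ i j, w i = w j := by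
      intro r w hw i j
      have h1 := (iff_of_eq (congrFun (congrFun (congrArg Prod.fst hp) r) w)).1 hw
      rcases h1 with h1 | h1
      · rw [h1.1 i, h1.1 j]
      · rw [h1.1 i, h1.1 j]
    have key : tpo 𝔹 (Sum.elim z z') = tpo 𝔹 (Sum.elim (y 0) (y 1)) := by
      have hyrel : ∀ (r : Fin ρ.m) (w : Fin (ρ.ar r) → Fin 2 × Fin 6),
          𝔹 r (fun i => y (w i).1 (w i).2) ↔
          ((∀ i j, (w i).1 = (w j).1) ∧ 𝔹 r (fun i => q (w i).2)) := by
        intro r w
        rw [hy.rel r w]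
        constructor
        · rintro (⟨h1, h2⟩ | ⟨l, h1, h2⟩)
          · refine ⟨fun i j => ?_, ?_⟩
            · by_contra hne
              have h3 := h1 i j
              have h4 : ∀ a b : Fin 2, a ≠ b → p a ≠ p b := by
                intro a b hab
                fin_cases a <;> fin_cases b
                · exact absurd rfl hab
                · exact hp01.ne
                · exact hp01.ne'
                · exact absurd rfl hab
              exact h4 _ _ hne h3
            · simp only [hQp] at h2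
              exact h2
          · have h3 := hfree r (fun i => (w i).1) h2
            refine ⟨h3, ?_⟩
            simp only [hQp] at h1
            have e1 : (fun i => q (w i).2) = fun _ => q l := funext h1
            rw [e1]
            have h0 : 0 < ρ.ar r := har r
            have e2 : (fun i => p (w i).1) = fun _ => p (w ⟨0, h0⟩).1 :=
              funext fun i => by rw [h3 i ⟨0, h0⟩]
            rw [e2] at h2
            have h5 : ty 𝔹 (q l) = ty 𝔹 (p (w ⟨0, h0⟩).1) := by rw [hq l, hpt]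
            exact (iff_of_eq (congrFun h5 r)).2 h2
        · rintro ⟨h1, h2⟩
          refine Or.inl ⟨fun i j => by rw [h1 i j], ?_⟩
          simp only [hQp]
          exact h2
      have hylt : ∀ (a b : Fin 2) (l l' : Fin 6), y a l < y b l' ↔
          (q l < q l' ∨ (q l = q l' ∧ p a < p b)) := by
        intro a b l l'
        rw [hy.lt, hQp, hQp]
      have hcp := tpo_eq_iff.1 hT.cp
      have hcp' := tpo_eq_iff.1 hT.cp'
      refine tpo_eq_iff.2 ⟨fun r w => ?_, fun a b => ?_⟩
      · let w' : Fin (ρ.ar r) → Fin 2 × Fin 6 :=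
          fun i => Sum.elim (fun l => ((0 : Fin 2), l)) (fun l => ((1 : Fin 2), l)) (w i)
        have e1 : (fun i => Sum.elim (y 0) (y 1) (w i)) = fun i => y (w' i).1 (w' i).2 := by
          funext i
          rcases hw : w i with l | l <;> simp only [w', hw, Sum.elim_inl, Sum.elim_inr]
        rw [e1, hyrel r w']
        constructor
        · intro h1
          rcases hT.free r w h1 with h2 | h2
          · choose v hv using h2
            have e2 : w = fun i => Sum.inl (v i) := funext hv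
            subst e2
            exact ⟨fun i j => rfl, (hcp.1 r v).1 h1⟩
          · choose v hv using h2
            have e2 : w = fun i => Sum.inr (v i) := funext hv
            subst e2
            exact ⟨fun i j => rfl, (hcp'.1 r v).1 h1⟩
        · rintro ⟨h1, h2⟩
          have h0 : 0 < ρ.ar r := har r
          rcases hw0 : w ⟨0, h0⟩ with l0 | l0
          · have h3 : ∀ i, ∃ v, w i = Sum.inl v := by
              intro i
              rcases hwi : w i with l | l
              · exact ⟨l, rfl⟩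
              · have h4 := h1 i ⟨0, h0⟩
                simp only [w', hwi, hw0, Sum.elim_inl, Sum.elim_inr] at h4
                exact absurd h4 (by decide)
            choose v hv using h3
            have e2 : w = fun i => Sum.inl (v i) := funext hv
            subst e2
            exact (hcp.1 r v).2 h2
          · have h3 : ∀ i, ∃ v, w i = Sum.inr v := by
              intro i
              rcases hwi : w i with l | l
              · have h4 := h1 i ⟨0, h0⟩
                simp only [w', hwi, hw0, Sum.elim_inl, Sum.elim_inr] at h4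
                exact absurd h4 (by decide)
              · exact ⟨l, rfl⟩
            choose v hv using h3
            have e2 : w = fun i => Sum.inr (v i) := funext hv
            subst e2
            exact (hcp'.1 r v).2 h2
      · rcases a with a | a <;> rcases b with b | b
        · show z a < z b ↔ y 0 a < y 0 b
          rw [hylt, hcp.2 a b]
          exact ⟨Or.inl, fun h2 => h2.resolve_right fun h3 => lt_irrefl _ h3.2⟩
        · show z a < z' b ↔ y 0 a < y 1 b
          rw [hylt, hT.lt, le_iff_lt_or_eq]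
          exact or_congr Iff.rfl ⟨fun h2 => ⟨h2, hp01⟩, fun h2 => h2.1⟩
        · show z' a < z b ↔ y 1 a < y 0 b
          rw [hylt, hT.gt]
          exact ⟨Or.inl, fun h2 => h2.resolve_right fun h3 => lt_asymm h3.2 hp01⟩
        · show z' a < z' b ↔ y 1 a < y 1 b
          rw [hylt, hcp'.2 a b]
          exact ⟨Or.inl, fun h2 => h2.resolve_right fun h3 => lt_irrefl _ h3.2⟩
    have h6 : pullO h ![z, z'] = pullO h ![y 0, y 1] := by
      refine hh.tid.gen (SameO.of_tpo ?_ D)
      have h7 := tpo_comp key (fun c : Fin 2 × Fin 6 =>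
        if c.1 = 0 then Sum.inl c.2 else Sum.inr c.2)
      have e1 : ∀ (a b : Fin 6 → V), (fun c : Fin 2 × Fin 6 =>
          Sum.elim a b (if c.1 = 0 then Sum.inl c.2 else Sum.inr c.2)) =
          fun c : Fin 2 × Fin 6 => (![a, b] : Fin 2 → Fin 6 → V) c.1 c.2 := by
        intro a b
        funext c
        rcases c with ⟨c, l⟩
        fin_cases c <;> rfl
      rw [e1, e1] at h7
      exact h7
    have h8 : y = ![y 0, y 1] := by
      funext a
      fin_cases a <;> rfl
    have h9 := hm 2 p y hy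
    rw [hp, h8, ← h6] at h9
    unfold Clp
    rw [h9]
    exact he

end Pool.Agent.H44.AR
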